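import Mathlib
import Pool.Agent.H.MP_8983f3_an.A

set_option autoImplicit false

namespace Pool.Agent.Results.MP_8983f3_an.No

open Set Function TopologicalSpace

theorem result : ∃ (X Y M : Type) (_ : NormedAddCommGroup X) (_ : NormedSpace ℝ X) (_ : CompleteSpace X)
    (_ : SeparableSpace X) (_ : NormedAddCommGroup Y) (_ : NormedSpace ℝ Y) (_ : CompleteSpace Y)
    (_ : SeparableSpace Y) (_ : NormedAddCommGroup M) (_ : NormedSpace ℝ M) (_ : CompleteSpace M)
    (j : M →L[ℝ] Y) (φ : X → Y), Injective j ∧ (∀ m, ‖j m‖ ≤ ‖m‖) ∧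
      @Measurable X Y (borel X) (borel Y) φ ∧
      (∀ (x y : X) (a b : ℝ), φ (a • x + b • y) - (a • φ x + b • φ y) ∈ range j) ∧
      ∀ (Z : Type) [NormedAddCommGroup Z] [NormedSpace ℝ Z] [CompleteSpace Z] (i : Z →ₗ[ℝ] X),
        Injective i → @Measurable Z X (borel Z) (borel X) i → range i ≠ φ ⁻¹' range j := by
  open Pool.Agent.H.MP_25e654_an Pool.Agent.H.MP_8983f3_an in
  haveI := sep
  refine ⟨E, E, E, inferInstance, inferInstance, inferInstance, inferInstance, inferInstance, inferInstance,
    inferInstance, inferInstance, inferInstance, inferInstance, inferInstance, mu _ hw, om,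
    fun x y h => lp.ext (funext fun n => ?_), fun m => ?_, ?_, fun x y a b => ?_,
    fun Z _ _ _ i a b c => H.MP_8983f3_an.main Z ⟨i, pettis i b⟩ a fun x => ?_⟩
  · simpa [mu] using congrArg (fun v : E => v n) h
  · simpa using (mu _ hw).le_of_opNorm_le (lp.norm_mapCLM_le ..) m
  · exact (continuous_fst (X := E) (Y := E)).borel_measurable.comp meas
  · exact (lin x y a b).imp fun m h => congrArg Prod.fst h
  exact (Set.ext_iff.1 c x).trans (H.MP_8983f3_an.mem x)

end Pool.Agent.Results.MP_8983f3_an.No
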